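import Pool.Agent.Lib.helper5.IenvU

open Set Filter H5U

namespace Pool.Agent.Results.MP_1f58a3_an.NoConstant

variable {X : Type} [NormedAddCommGroup X] [NormedSpace ℝ X]

/-- The quantity `s_η(x)`. -/
noncomputable def s (A : Set (StrongDual ℝ X)) (η : StrongDual ℝ X) (x : ℕ → X) : ℝ :=
  (⨅ k, η (x k)) - sSup {v | ∃ ξ ∈ A, v = limsup (fun k => ξ (x k)) atTop}

/-- The quantity `d₂(η)`. -/
noncomputable def d2 (A : Set (StrongDual ℝ X)) (η : StrongDual ℝ X) : ℝ :=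
  sSup {v | ∃ x : ℕ → X, (∀ k, ‖x k‖ ≤ 1) ∧ v = s A η x}

/-- The quantity `d₁(η)`. -/
noncomputable def d1 (A : Set (StrongDual ℝ X)) (η : StrongDual ℝ X) : ℝ :=
  Metric.infDist η (Ienv A)

/-- `A` is nonempty and bounded, and `d₁(η) > c d₂(η)`. -/
def Bad (c : ℝ) (A : Set (StrongDual ℝ X)) (η : StrongDual ℝ X) : Prop :=
  A.Nonempty ∧ Bornology.IsBounded A ∧ c * d2 A η < d1 A η

/-- No constant `c` works. -/
theorem result (c : ℝ) (hc : 1 ≤ c) : ∃ (X : Type) (_ : NormedAddCommGroup X) (_ : NormedSpace ℝ X),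
    CompleteSpace X ∧ ∃ (A : Set (StrongDual ℝ X)) (η : StrongDual ℝ X), Bad c A η := by
  obtain ⟨W, _, _, w⟩ := exW
  obtain ⟨X, _, _, a, P, Q, _, e⟩ := ex W
  have c0 : 0 < c + 1 := by linarith
  refine ⟨X, _, _, inferInstance, range (a (c + 1)), 0, range_nonempty _,
    isBounded_iff_forall_norm_le.2 ⟨_, forall_mem_range.2 (e.bd _ c0)⟩, lt_of_lt_of_le (b := 1) ?_
      ((Metric.le_infDist ((range_nonempty _).mono (sub_Ienv _))).2 fun ξ h => ?_)⟩
  · refine (mul_le_mul_of_nonneg_left (Real.sSup_le (a := (c + 1)⁻¹) ?_ (by positivity))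
      (by linarith)).trans_lt (by rw [mul_inv_lt_iff₀ c0]; linarith)
    rintro _ ⟨x, x1, rfl⟩
    choose N n1 n2 using fun k => e.ev (x k)
    obtain ⟨t, ht⟩ := not_forall.1 fun n => not_countable_univ
      ((countable_iUnion n1).mono fun s _ => n s)
    have b : ∀ t k, |a (c + 1) t (x k)| ≤ c + 1 + (c + 1)⁻¹ := fun t k =>
      ((a _ t).le_opNorm _).trans ((mul_le_of_le_one_right (norm_nonneg _) (x1 k)).trans
        (e.bd _ c0 t))
    have := le_csSup (s := {v | ∃ ξ ∈ range (a (c + 1)), v = limsup (fun k => ξ (x k)) atTop})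
      ⟨c + 1 + (c + 1)⁻¹, by
        rintro _ ⟨_, ⟨t, rfl⟩, rfl⟩
        exact limsup_le_of_le (isCoboundedUnder_le_of_le _ fun k => (abs_le.1 (b t k)).1)
          (Eventually.of_forall fun k => (abs_le.1 (b t k)).2)⟩ ⟨_, ⟨t, rfl⟩, rfl⟩
    have k := le_limsup_of_frequently_le (f := atTop) (u := fun k => a (c + 1) t (x k))
      (a := -(c + 1)⁻¹) (Frequently.of_forall fun k => (abs_le.1 ((n2 k t (fun m =>
        ht (mem_iUnion.2 ⟨k, m⟩)) _ c0).trans (mul_le_of_le_one_right (by positivity) (x1 k)))).1)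
      (isBoundedUnder_of ⟨_, fun k => (abs_le.1 (b t k)).2⟩)
    simp only [s, zero_apply, ciInf_const]
    linarith
  · rw [dist_zero_left]
    exact e.far w (R := c + 1) (forall_mem_range.2 fun t => ⟨_, t, by linarith, le_rfl, rfl⟩) h

end Pool.Agent.Results.MP_1f58a3_an.NoConstant
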